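import Mathlib

set_option autoImplicit false

namespace Pool.Agent.Results.MP_d6d41b_al.Bisimple

/-- The semigroup `S` has a (two-sided) identity element. -/
def HasIdentity (S : Type) [Semigroup S] : Prop :=
  ∃ e : S, ∀ x : S, e * x = x ∧ x * e = x

/-- Strong o-conjugacy: there are mutually inverse `g, h` in `S¹` with `a g = g b` and `b h = h a`,
where `S¹ = S` if `S` has an identity and `S¹ = WithOne S` (identity adjoined) otherwise. -/
def StrongOConj {S : Type} [Semigroup S] (a b : S) : Prop :=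
  (HasIdentity S ∧
    ∃ g h : S, g * h * g = g ∧ h * g * h = h ∧ a * g = g * b ∧ b * h = h * a) ∨
  (¬ HasIdentity S ∧
    ∃ g h : WithOne S, g * h * g = g ∧ h * g * h = h ∧
      (a : WithOne S) * g = g * (b : WithOne S) ∧ (b : WithOne S) * h = h * (a : WithOne S))

theorem so_iff {S : Type} [Monoid S] {a b : S} : StrongOConj a b ↔
    ∃ g h : S, g * h * g = g ∧ h * g * h = h ∧ a * g = g * b ∧ b * h = h * a := by
  have h : HasIdentity S := ⟨1, fun x => ⟨one_mul x, mul_one x⟩⟩
  simp [StrongOConj, h]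

/-- The monoid of all finite-to-one maps from `X` to `X`. -/
def finToOne (X : Type) : Submonoid (Function.End X) where
  carrier := {f | ∀ y : X, {x : X | f x = y}.Finite}
  one_mem' y := Set.finite_singleton y
  mul_mem' {_ g} hf hg y := Set.Finite.preimage' (f := g) (hf y) fun z _ => hg z

variable {J X : Type} {s s' : J → ℕ}

/-- Points `(i, n, k)`: component `i` is a ray with a side path of length `s i * n` entering at
position `n`. -/
abbrev Y (s : J → ℕ) : Type := {p : J × ℕ × ℕ // p.2.2 ≤ s p.1 * p.2.1}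

def step (s : J → ℕ) (p : Y s) : Y s :=
  if p.1.2.2 = 0 then ⟨(p.1.1, p.1.2.1 + 1, 0), Nat.zero_le _⟩
  else ⟨(p.1.1, p.1.2.1, p.1.2.2 - 1), (Nat.sub_le _ _).trans p.2⟩

def tr (σ : J → J) (h : ∀ i, s i ≤ s' (σ i)) (p : Y s) : Y s' :=
  ⟨(σ p.1.1, p.1.2), p.2.trans (Nat.mul_le_mul_right _ (h _))⟩

theorem tr_step (σ : J → J) (h : ∀ i, s i ≤ s' (σ i)) (p : Y s) :
    step s' (tr σ h p) = tr σ h (step s p) := by
  by_cases hk : p.1.2.2 = 0 <;> simp [step, tr, hk]

theorem step_fin (q : Y s) : {p | step s p = q}.Finite := by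
  refine ((Set.toFinite {(q.1.1, q.1.2.1 - 1, 0), (q.1.1, q.1.2.1, q.1.2.2 + 1)}).preimage
    Subtype.val_injective.injOn).subset ?_
  rintro ⟨⟨i, n, k⟩, h⟩ rfl
  rcases k with _ | k <;> simp [step]

theorem tr_fin {σ : J → J} (h : ∀ i, s i ≤ s' (σ i)) (hσ : ∀ j, {i | σ i = j}.Finite) (q : Y s') :
    {p | tr σ h p = q}.Finite := by
  refine (((hσ q.1.1).prod (Set.finite_singleton q.1.2)).preimage
    Subtype.val_injective.injOn).subset ?_
  rintro p rfl
  exact ⟨rfl, rfl⟩

theorem iter_le (hs : ∀ i, 1 ≤ s i) (p : Y s) (m : ℕ) : ((step s)^[m] p).1.1 = p.1.1 ∧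
    ((step s)^[m] p).1.2.1 ≤ p.1.2.1 + m ∧
      m + ((step s)^[m] p).1.2.2 ≤ s p.1.1 * ((step s)^[m] p).1.2.1 := by
  induction m with
  | zero => simpa using p.2
  | succ m ih =>
    rw [Function.iterate_succ_apply', step]
    have := hs p.1.1
    split_ifs
    · refine ⟨ih.1, by simp only; omega, ?_⟩
      simp only [mul_add]
      omega
    · exact ⟨ih.1, by simp only; omega, by simp only; omega⟩

theorem iter_down (i : J) (n k : ℕ) (h : k ≤ s i * n) :
    (step s)^[k] ⟨(i, n, k), h⟩ = ⟨(i, n, 0), Nat.zero_le _⟩ := by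
  induction k with
  | zero => rfl
  | succ k ih => exact ih (by omega)

theorem iter_ray (i : J) (n m : ℕ) :
    (step s)^[m] ⟨(i, n, 0), Nat.zero_le _⟩ = ⟨(i, n + m, 0), Nat.zero_le _⟩ := by
  induction m with
  | zero => rfl
  | succ m ih => rw [Function.iterate_succ_apply', ih]; rfl

/-- A homomorphism maps a component to one with at least the same slope. -/
theorem slope_le (hs : ∀ i, 1 ≤ s' i) (φ : Y s → Y s')
    (hφ : ∀ p, step s' (φ p) = φ (step s p)) (p : Y s) : s p.1.1 ≤ s' (φ p).1.1 := by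
  obtain ⟨⟨i, n, k⟩, h⟩ := p
  have H := fun m => (show Function.Semiconj φ _ _ from fun p => (hφ p).symm).iterate_right m
  have key : ∀ m, s i * (n + m) ≤ s' (φ ⟨(i, n, k), h⟩).1.1 * ((φ ⟨(i, n, k), h⟩).1.2.1 + k + m) :=
    fun m => by
    obtain ⟨a1, a2, -⟩ := iter_le hs (φ ⟨(i, n, k), h⟩) (m + k)
    obtain ⟨b1, -, b3⟩ := iter_le hs (φ ⟨(i, n + m, s i * (n + m)), le_rfl⟩) (s i * (n + m))
    rw [← H, Function.iterate_add_apply, iter_down, iter_ray] at a1 a2
    rw [← H, iter_down] at b1 b3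
    rw [← b1, a1] at b3
    exact (le_of_add_le_left b3).trans (Nat.mul_le_mul_left _ (by omega))
  have fin : ∀ a b c : ℕ, (∀ m, a * (n + m) ≤ b * (c + m)) → a ≤ b := fun a b c H => by
    by_contra! hlt
    have h1 := H (b * c + 1)
    have h2 := Nat.mul_le_mul_right (b * c + 1) (Nat.succ_le_of_lt hlt)
    rw [mul_add a n, mul_add b c] at h1
    rw [Nat.succ_mul] at h2
    omega
  exact fin _ _ _ key

theorem exists_equiv [Infinite X] (s : X × ℕ → ℕ) : Nonempty (X ≃ Y s) := by
  refine Function.Embedding.antisymm ⟨fun x => ⟨((x, 0), 0, 0), Nat.zero_le _⟩, fun x y h => by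
    simpa using h⟩ ((Function.Embedding.subtype _).trans (Nonempty.some ?_))
  rw [← Cardinal.le_def]
  simp [Cardinal.infinite_iff.1 ‹_›]

theorem conj_mem {A B : Type} (e : X ≃ A) (e' : X ≃ B) {f : B → A}
    (h : ∀ q, {p | f p = q}.Finite) : (fun x => e.symm (f (e' x))) ∈ finToOne X := fun y =>
  ((h (e y)).preimage e'.injective.injOn).subset fun x (hx : _ = _) => by simp [← hx]

theorem so_of {M : Submonoid (Function.End X)} (hM : finToOne X ≤ M) (e : X ≃ Y s) (e' : X ≃ Y s')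
    {σ τ : J → J} (h : ∀ i, s i ≤ s' (σ i)) (h' : ∀ i, s' i ≤ s (τ i))
    (hσ : ∀ j, {i | σ i = j}.Finite) (hτ : ∀ j, {i | τ i = j}.Finite)
    (e1 : ∀ i, σ (τ (σ i)) = σ i) (e2 : ∀ i, τ (σ (τ i)) = τ i) :
    StrongOConj (S := M) ⟨_, hM (conj_mem e e step_fin)⟩ ⟨_, hM (conj_mem e' e' step_fin)⟩ := by
  refine so_iff.2 ⟨⟨_, hM (conj_mem e e' (tr_fin h' hτ))⟩, ⟨_, hM (conj_mem e' e (tr_fin h hσ))⟩,
    ?_, ?_, ?_, ?_⟩ <;> refine Subtype.ext (funext fun x => ?_)
  · simp [Function.End.mul_def, tr, e2]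
  · simp [Function.End.mul_def, tr, e1]
  · simp [Function.End.mul_def, tr_step]
  · simp [Function.End.mul_def, tr_step]

theorem fin_snd (σ : ℕ → ℕ) (h : ∀ i, i ≤ 2 * σ i + 1) (j : X × ℕ) :
    {i : X × ℕ | (i.1, σ i.2) = j}.Finite := by
  refine ((Set.finite_singleton j.1).prod (Set.finite_Iic (2 * j.2 + 1))).subset ?_
  rintro i rfl
  exact ⟨rfl, h _⟩

theorem regular (x : finToOne X) : ∃ y, x = x * y * x := by
  classical
  refine ⟨⟨fun z => if h : ∃ t, x.1 t = z then h.choose else z, fun w =>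
    (Set.toFinite {x.1 w, w}).subset fun z (hz : dite _ _ _ = w) => ?_⟩,
    Subtype.ext (funext fun t => ?_)⟩
  · split_ifs at hz with h
    · exact .inl (hz ▸ h.choose_spec.symm)
    · exact .inr hz
  · have h : ∃ u, x.1 u = x.1 t := ⟨t, rfl⟩
    exact ((congrArg x.1 (dif_pos h)).trans h.choose_spec).symm

theorem range_equiv [Infinite X] (x : finToOne X) : Nonempty (Set.range x.1 ≃ X) := by
  have : Infinite (Set.range x.1) := Set.infinite_coe_iff.2 fun h =>
    Set.infinite_univ (Set.Finite.of_finite_fibers x.1 (by rwa [Set.image_univ]) fun y _ =>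
      (x.2 y).inter_of_right _)
  refine Cardinal.eq.1 ((Cardinal.mk_set_le _).eq_of_not_lt fun h => ?_)
  obtain ⟨y, hy⟩ := Cardinal.exists_infinite_fiber (Set.rangeFactorization x.1) h
  exact Set.infinite_coe_iff.1 hy ((x.2 y).subset fun t (ht : _ = y) => congrArg Subtype.val ht)

theorem main (X : Type) [Infinite X] :
    (∀ x : finToOne X, ∃ y, x = x * y * x) ∧
    (∀ x y : finToOne X, ∃ z, (∃ u v, x = z * u ∧ z = x * v) ∧ ∃ u v, y = u * z ∧ z = v * y) ∧
    ∀ M : Submonoid (Function.End X), finToOne X ≤ M →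
      ∃ a b c : M, StrongOConj a b ∧ StrongOConj b c ∧ ¬ StrongOConj a c := by
  refine ⟨regular, fun x y => ?_, fun M hM => ?_⟩
  · obtain ⟨β⟩ : Nonempty (Set.range y.1 ≃ Set.range x.1) :=
      ⟨(range_equiv y).some.trans (range_equiv x).some.symm⟩
    have k : ∀ t u, (β ⟨y.1 t, t, rfl⟩).1 = β ⟨y.1 u, u, rfl⟩ → y.1 t = y.1 u := fun t u h =>
      congrArg Subtype.val (β.injective (Subtype.ext h))
    let z : finToOne X := ⟨fun t => β ⟨y.1 t, t, rfl⟩, fun w => by
      rcases Set.eq_empty_or_nonempty {t | (β ⟨y.1 t, t, rfl⟩).1 = w} with h | ⟨u, hu⟩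
      · exact h ▸ Set.finite_empty
      · exact (y.2 (y.1 u)).subset fun t ht => k t u (ht.trans hu.symm)⟩
    obtain ⟨x', hx⟩ := regular x
    obtain ⟨y', hy⟩ := regular y
    obtain ⟨z', hz⟩ := regular z
    have c : ∀ {f g : finToOne X}, f = f * g * f → ∀ t, f.1 t = f.1 (g.1 (f.1 t)) :=
      fun h => congrFun (congrArg Subtype.val h)
    refine ⟨z, ⟨z' * x, x' * z, ?_, ?_⟩, y * z', z * y', ?_, ?_⟩ <;>
      refine Subtype.ext (funext fun t => ?_)
    · obtain ⟨⟨_, u, rfl⟩, hu⟩ := β.surjective ⟨x.1 t, t, rfl⟩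
      have h : z.1 u = x.1 t := congrArg Subtype.val hu
      exact h ▸ (show z.1 u = z.1 (z'.1 (x.1 t)) from h ▸ c hz u)
    · obtain ⟨u, hu⟩ := (β ⟨y.1 t, t, rfl⟩).2
      exact show z.1 t = x.1 (x'.1 (z.1 t)) from (show x.1 u = z.1 t from hu) ▸ c hx u
    · exact k _ _ (c hz t)
    · exact congrArg (fun w => (β w).1) (Subtype.ext (c hy t))
  · obtain ⟨ea⟩ := exists_equiv (X := X) fun i => 2 * i.2 + 1
    obtain ⟨eb⟩ := exists_equiv (X := X) fun i => i.2 + 1
    obtain ⟨ec⟩ := exists_equiv (X := X) fun i => 2 * i.2 + 2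
    refine ⟨_, _, _, so_of hM ea eb (σ := fun i => (i.1, 2 * i.2))
      (τ := fun i => (i.1, (i.2 + 1) / 2)) (fun i => le_rfl) (fun i => by simp only; omega)
      (fin_snd (2 * ·) fun i => by omega) (fin_snd (fun i => (i + 1) / 2) fun i => by omega)
      (fun i => by simp only [Prod.mk.injEq, true_and]; omega)
      (fun i => by simp only [Prod.mk.injEq, true_and]; omega),
      so_of hM eb ec (σ := fun i => (i.1, i.2 / 2)) (τ := fun i => (i.1, 2 * i.2 + 1))
      (fun i => by simp only; omega) (fun i => le_rfl)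
      (fin_snd (· / 2) fun i => by omega) (fin_snd (2 * · + 1) fun i => by omega)
      (fun i => by simp only [Prod.mk.injEq, true_and]; omega)
      (fun i => by simp only [Prod.mk.injEq, true_and]; omega), ?_⟩
    rw [so_iff]
    rintro ⟨g, h, e1, -, e3, e4⟩
    have f1 : ∀ t, g.1 (h.1 (g.1 t)) = g.1 t := congrFun (congrArg Subtype.val e1)
    have f3 : ∀ t, ea.symm (step _ (ea (g.1 t))) = g.1 (ec.symm (step _ (ec t))) :=
      congrFun (congrArg Subtype.val e3)
    have f4 : ∀ t, ec.symm (step _ (ec (h.1 t))) = h.1 (ea.symm (step _ (ea t))) :=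
      congrFun (congrArg Subtype.val e4)
    obtain ⟨t⟩ : Nonempty X := inferInstance
    have k1 := slope_le (fun i => by omega) (fun p => ea (g.1 (ec.symm p)))
      (fun p => by simpa [Equiv.symm_apply_eq] using f3 (ec.symm p)) (ec (h.1 (g.1 t)))
    have k2 := slope_le (fun i => by omega) (fun p => ec (h.1 (ea.symm p)))
      (fun p => by simpa [Equiv.symm_apply_eq] using f4 (ea.symm p)) (ea (g.1 t))
    simp only [Equiv.symm_apply_apply, f1] at k1 k2
    omega

/-- There is a regular semigroup in which strong o-conjugacy is not transitive. More precisely,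
for every infinite set `X` the monoid of finite-to-one self-maps of `X` is regular and bisimple,
and strong o-conjugacy is not transitive in any monoid between it and the full transformation
monoid. -/
theorem result :
    (∃ (S : Type) (_ : Semigroup S), (∀ x : S, ∃ y : S, x = x * y * x) ∧
      ∃ a b c : S, StrongOConj a b ∧ StrongOConj b c ∧ ¬ StrongOConj a c) ∧
    ∀ (X : Type) [Infinite X], (∀ x : finToOne X, ∃ y, x = x * y * x) ∧
      (∀ x y : finToOne X, ∃ z, (∃ u v, x = z * u ∧ z = x * v) ∧ ∃ u v, y = u * z ∧ z = v * y) ∧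
      ∀ M : Submonoid (Function.End X), finToOne X ≤ M →
        ∃ a b c : M, StrongOConj a b ∧ StrongOConj b c ∧ ¬ StrongOConj a c :=
  ⟨⟨finToOne ℕ, inferInstance, regular, (main ℕ).2.2 _ le_rfl⟩, main⟩

end Pool.Agent.Results.MP_d6d41b_al.Bisimple
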